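import Pool.Agent.TH944.Del.Fin

open Pool.Agent.TH965.Stk Pool.Agent.TH944.Tw

namespace Pool.Agent.Results.MP_cd171c_nt.TotallyComplexTwists

/-- Let `U` be a subgroup of the multiplicative group of complex numbers closed under square roots
(for instance the roots of unity of 2-power order, or the algebraic numbers). Deligne's conjecture
modulo `U` for the value at `s₀` of all twists of a motive `M` over `ℚ` of odd weight by Artin
motives over `ℚ` is equivalent to its special case of the twists `M ⊗ Ind ψ`, where `ψ` is a linear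
character of a totally complex number field `K` with at least `N` complex places, or the trivial
character of a number field `K` with at least `N` complex places. The period of `M ⊗ Ind ψ` is
`c^+(M(s₀))^(r1 + r2) c^-(M(s₀))^r2 δ(Ind ψ)^h`. -/
theorem result {E : Type} [Field E] (U : Subgroup ℂˣ) (hU : ∀ x : ℂˣ, x * x ∈ U → x ∈ U)
    (T : Twists E) (N : ℕ) :
    (∀ σ τ, ∀ f ∈ Virt QQ, T.B 0 1 (dim T.cc 1 f) (dim T.cc (-1) f) σ τ f ∈ U) ↔
    (∀ σ τ K, IsNF K → N ≤ r2 K → ∀ ψ : LinChar K, (IsTC K ∨ ∀ g, ψ.hom g = 1) →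
      T.B 0 1 (r1 K + r2 K) (r2 K) σ τ (ind QQ K ψ.fn) ∈ U) :=
  main2 U hU T 0 1 N

end Pool.Agent.Results.MP_cd171c_nt.TotallyComplexTwists
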